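import Pool.Agent.H958R2.GK.Forest

set_option autoImplicit false

/-!
# Grünbaum's problem: graphs of large girth, all degrees, `3 ⌈(k + 1) / 5⌉` colours

Stronger form of `MP_246f82_co.AllDegrees` (every graph of maximum degree `k ≥ 4` and large girth has
a proper colouring with `k - 1` colours).

The case `k = 4` of the structure rests on the theorem `Pool.Agent.H958R2.GK.core4` of the starting
library (helper958 and others): in every graph of maximum degree at most `4` and large girth some
independent set meets all the paths of a certain length.  For larger `k` the vertices are divided by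
Lovász's partition lemma into parts which induce subgraphs of maximum degree at most `4` (one part
possibly less), which have large girth again; in every part the complement of the independent set has
no long paths, so it induces a forest with bounded components.

For the number of colourings: the two colours of a forest class are used nowhere else.  The components
of a forest class can be recoloured independently of each other; and in a set of vertices of one
colour which have no neighbours in the forest class, every vertex can be given one of its colours,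
independently of the others.  One of the two numbers of choices is linear in the number of vertices.
-/

namespace Pool.Agent.Results.MP_246f82_co.StrongPartition

open Finset

/-! ### Lovász's partition lemma -/

section Lovasz

variable {V : Type}

open Classical in
/-- adjacency as a number -/
noncomputable def aa (G : SimpleGraph V) (u w : V) : ℤ := if G.Adj u w then 1 else 0

open Classical in
/-- Kronecker symbol -/
noncomputable def dl {α : Type} (i j : α) : ℤ := if i = j then 1 else 0

theorem aa_self (G : SimpleGraph V) (u : V) : aa G u u = 0 := by simp [aa]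

theorem aa_comm (G : SimpleGraph V) (u v : V) : aa G u v = aa G v u := by
  unfold aa
  rw [SimpleGraph.adj_comm]

theorem dl_self {α : Type} (i : α) : dl i i = 1 := by simp [dl]

theorem dl_comm {α : Type} (i j : α) : dl i j = dl j i := by
  unfold dl
  by_cases h : i = j
  · rw [if_pos h, if_pos h.symm]
  · rw [if_neg h, if_neg (fun h' => h h'.symm)]

variable [Fintype V]

/-- number of neighbours of `v` of colour `i` -/
noncomputable def dc (G : SimpleGraph V) {p : ℕ} (f : V → Fin p) (v : V) (i : Fin p) : ℤ :=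
  ∑ w, aa G v w * dl (f w) i

/-- the potential -/
noncomputable def pot (G : SimpleGraph V) {p : ℕ} (d : Fin p → ℕ) (f : V → Fin p) : ℤ :=
  ∑ v, dc G f v (f v) - 2 * ∑ v, ((d (f v) : ℤ) + 1)

theorem dc_update [DecidableEq V] (G : SimpleGraph V) {p : ℕ} (f : V → Fin p) (v : V) (j : Fin p)
    (i : Fin p) (u : V) : dc G (Function.update f v j) u i =
      dc G f u i + aa G u v * (dl j i - dl (f v) i) := by
  unfold dc
  have h : ∀ w, aa G u w * dl (Function.update f v j w) i =
      aa G u w * dl (f w) i + if w = v then aa G u w * (dl j i - dl (f w) i) else 0 := by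
    intro w
    by_cases hw : w = v
    · subst hw
      rw [Function.update_self, if_pos rfl]
      ring
    · rw [Function.update_of_ne hw, if_neg hw, add_zero]
  rw [Finset.sum_congr rfl (fun w _ => h w), Finset.sum_add_distrib, Finset.sum_ite_eq' univ v]
  simp

theorem pot_update [DecidableEq V] (G : SimpleGraph V) {p : ℕ} (d : Fin p → ℕ) (f : V → Fin p)
    (v : V) (j : Fin p) :
    pot G d (Function.update f v j) = pot G d f +
      (2 * (dc G f v j - ((d j : ℤ) + 1)) - 2 * (dc G f v (f v) - ((d (f v) : ℤ) + 1))) := by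
  have h1 : ∀ u, dc G (Function.update f v j) u (Function.update f v j u) =
      dc G f u (f u) + (aa G v u * dl (f u) j - aa G v u * dl (f u) (f v)) +
        if u = v then dc G f v j - dc G f u (f u) else 0 := by
    intro u
    rw [dc_update]
    by_cases hu : u = v
    · subst hu
      rw [Function.update_self, if_pos rfl, aa_self]
      ring
    · rw [Function.update_of_ne hu, if_neg hu, aa_comm G u v, dl_comm j, dl_comm (f v)]
      ring
  have h2 : ∀ u, ((d (Function.update f v j u) : ℤ) + 1) =
      ((d (f u) : ℤ) + 1) + if u = v then (d j : ℤ) - d (f u) else 0 := by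
    intro u
    by_cases hu : u = v
    · subst hu
      rw [Function.update_self, if_pos rfl]
      ring
    · rw [Function.update_of_ne hu, if_neg hu]
      ring
  unfold pot
  rw [Finset.sum_congr rfl (fun u _ => h1 u), Finset.sum_congr rfl (fun u _ => h2 u),
    Finset.sum_add_distrib, Finset.sum_add_distrib, Finset.sum_add_distrib,
    Finset.sum_sub_distrib, Finset.sum_ite_eq' univ v, Finset.sum_ite_eq' univ v]
  simp only [Finset.mem_univ, if_true]
  change _ + (dc G f v j - dc G f v (f v)) + _ - _ = _
  ring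

theorem dc_eq (G : SimpleGraph V) {p : ℕ} (f : V → Fin p) (v : V) (i : Fin p) :
    dc G f v i = (({w | G.Adj v w ∧ f w = i} : Set V).ncard : ℤ) := by
  classical
  have h : ∀ w, aa G v w * dl (f w) i = if G.Adj v w ∧ f w = i then 1 else 0 := by
    intro w
    unfold aa dl
    by_cases h1 : G.Adj v w <;> by_cases h2 : f w = i <;> simp [h1, h2]
  unfold dc
  rw [Finset.sum_congr rfl (fun w _ => h w), Finset.sum_boole, Set.ncard_eq_toFinset_card']
  congr 2
  ext w
  simp

/-- **Lovász's partition lemma.** -/
theorem lovasz (G : SimpleGraph V) {p : ℕ} (d : Fin p → ℕ) (k : ℕ)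
    (hG : ∀ v, (G.neighborSet v).ncard ≤ k) (hd : k + 1 ≤ ∑ i, (d i + 1)) :
    ∃ f : V → Fin p, ∀ v, ({w | G.Adj v w ∧ f w = f v} : Set V).ncard ≤ d (f v) := by
  classical
  have hp : 0 < p := by
    rcases Nat.eq_zero_or_pos p with rfl | h
    · simp at hd
    · exact h
  have : Nonempty (V → Fin p) := ⟨fun _ => ⟨0, hp⟩⟩
  obtain ⟨f, hf⟩ := Finite.exists_min (pot G d)
  refine ⟨f, fun v => ?_⟩
  by_contra hcon
  push Not at hcon
  have h1 : ((d (f v) : ℤ) + 1) ≤ dc G f v (f v) := by
    rw [dc_eq]
    exact_mod_cast hcon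
  have h2 : ∑ i, dc G f v i = ((G.neighborSet v).ncard : ℤ) := by
    unfold dc
    rw [Finset.sum_comm]
    have h3 : ∀ w, ∑ i : Fin p, aa G v w * dl (f w) i = if G.Adj v w then 1 else 0 := by
      intro w
      unfold aa dl
      by_cases h : G.Adj v w <;> simp [h]
    rw [Finset.sum_congr rfl (fun w _ => h3 w), Finset.sum_boole, Set.ncard_eq_toFinset_card']
    congr 2
    ext w
    simp
  have h3 : ∑ i, dc G f v i < ∑ i, ((d i : ℤ) + 1) := by
    rw [h2]
    have h4 := hG v
    have h5 : ((k : ℤ) + 1) ≤ ∑ i, ((d i : ℤ) + 1) := by exact_mod_cast hd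
    have h6 : ((G.neighborSet v).ncard : ℤ) ≤ k := by exact_mod_cast h4
    omega
  obtain ⟨j, -, hj⟩ := Finset.exists_lt_of_sum_lt h3
  have h4 := hf (Function.update f v j)
  rw [pot_update] at h4
  omega

end Lovasz


/-! ### Sets without long paths -/

theorem bounded_forest {W : Type} [Fintype W] (H : SimpleGraph W) (L g : ℕ) (hLg : L + 2 ≤ g)
    (hd : ∀ v, (H.neighborSet v).ncard ≤ 4) (hg : (g : ℕ∞) ≤ H.egirth)
    (hpath : ∀ (a b : W) (p : H.Walk a b), p.IsPath → p.length < L) :
    H.IsAcyclic ∧ ∀ c : H.ConnectedComponent, c.supp.ncard ≤ 5 ^ L := by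
  constructor
  · intro v c hc
    have h1 := (SimpleGraph.le_egirth.mp hg) _ _ hc
    have h1 : g ≤ c.length := by exact_mod_cast h1
    cases c with
    | nil => exact absurd hc (by simp)
    | cons hadj q =>
      rw [SimpleGraph.Walk.cons_isCycle_iff] at hc
      have := hpath _ _ q hc.1
      rw [SimpleGraph.Walk.length_cons] at h1
      omega
  · intro c
    induction c using SimpleGraph.ConnectedComponent.ind with
    | h v =>
      have hsub : (H.connectedComponentMk v).supp ⊆ {w : W | ∃ p : H.Walk v w, p.length ≤ L} := by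
        intro w hw
        rw [SimpleGraph.ConnectedComponent.mem_supp_iff, SimpleGraph.ConnectedComponent.eq] at hw
        obtain ⟨p, hp⟩ := hw.symm.exists_isPath
        have := hpath _ _ p hp
        exact ⟨p, by omega⟩
      exact (Set.ncard_le_ncard hsub (Set.toFinite _)).trans
        (Pool.Agent.H958R2.GK.ball_card H hd L v)

section Parts

variable {V : Type} (G : SimpleGraph V)

theorem egirth_induce (S : Set V) {g : ℕ} (hg : (g : ℕ∞) ≤ G.egirth) :
    (g : ℕ∞) ≤ (G.induce S).egirth := by
  rw [SimpleGraph.le_egirth]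
  intro v c hc
  let ι : G.induce S →g G := ⟨fun v => v.1, fun h => h⟩
  have hc2 : (c.map ι).IsCycle := hc.map (f := ι) Subtype.val_injective
  have h1 := (SimpleGraph.le_egirth.mp hg) _ _ hc2
  rwa [SimpleGraph.Walk.length_map] at h1

variable [Fintype V]

theorem neigh_induce (S : Set V) (v : S) :
    ((G.induce S).neighborSet v).ncard ≤ ({w | G.Adj v w ∧ w ∈ S} : Set V).ncard := by
  have h : (fun w : S => (w : V)) '' ((G.induce S).neighborSet v) ⊆
      ({w | G.Adj v w ∧ w ∈ S} : Set V) := by
    rintro _ ⟨w, hw, rfl⟩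
    exact ⟨hw, w.2⟩
  rw [← Set.ncard_image_of_injective _ Subtype.val_injective]
  exact Set.ncard_le_ncard h (Set.toFinite _)

/-- One part: a set of vertices inducing a subgraph of maximum degree at most `d ≤ 4` is the union
of an independent set (empty if `d = 1`) and a set without paths with `L` edges (empty if
`d = 0`). -/
theorem one_part {g L : ℕ} (hL : 2 ≤ L)
    (hcore : ∀ (W : Type) [Fintype W] (H : SimpleGraph W), (∀ v, (H.neighborSet v).ncard ≤ 4) →
      (g : ℕ∞) ≤ H.egirth → ∃ I : Set W, (∀ v ∈ I, ∀ w ∈ I, ¬ H.Adj v w) ∧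
        ∀ (a b : W) (p : H.Walk a b), p.IsPath → p.length = L → ∃ v ∈ p.support, v ∈ I)
    (hg : (g : ℕ∞) ≤ G.egirth) (S : Set V) (d : ℕ) (hd4 : d ≤ 4)
    (hd : ∀ v ∈ S, ({w | G.Adj v w ∧ w ∈ S} : Set V).ncard ≤ d) :
    ∃ I ⊆ S, (∀ v ∈ I, ∀ w ∈ I, ¬ G.Adj v w) ∧ (d = 1 → I = ∅) ∧ (d = 0 → I = S) ∧
      ∀ (a b : (S \ I : Set V)) (p : (G.induce (S \ I)).Walk a b), p.IsPath → p.length < L := by
  classical
  rcases Nat.lt_or_ge d 2 with hd2 | hd2
  · interval_cases d
    · refine ⟨S, subset_rfl, ?_, by simp, by simp, ?_⟩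
      · intro v hv w hw hvw
        have h1 := hd v hv
        rw [Nat.le_zero, Set.ncard_eq_zero] at h1
        exact Set.eq_empty_iff_forall_notMem.1 h1 w ⟨hvw, hw⟩
      · intro a b p hp
        exact absurd a.2.1 a.2.2
    · refine ⟨∅, by simp, by simp, by simp, by simp, ?_⟩
      intro a b p hp
      by_contra hcon
      have hlen : 2 ≤ p.length := by omega
      cases p with
      | nil => simp at hlen
      | @cons _ x _ hax q =>
        cases q with
        | nil => simp at hlen
        | @cons _ y _ hxy q' =>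
          have h1 := hd x x.2.1
          have hay : a.1 ≠ y.1 := by
            rw [SimpleGraph.Walk.cons_isPath_iff] at hp
            intro h
            have h' : a = y := Subtype.ext h
            apply hp.2
            rw [h']
            simp
          have h2 : ({a.1, y.1} : Set V) ⊆ {w | G.Adj x w ∧ w ∈ S} := by
            intro z hz
            rcases hz with hz | hz
            · rw [hz]
              exact ⟨hax.symm, a.2.1⟩
            · rw [Set.mem_singleton_iff.1 hz]
              exact ⟨hxy, y.2.1⟩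
          have h3 := Set.ncard_le_ncard h2 (Set.toFinite _)
          rw [Set.ncard_pair hay] at h3
          omega
  · obtain ⟨I, hI1, hI2⟩ := hcore S (G.induce S)
      (fun v => ((neigh_induce G S v).trans (hd v v.2)).trans hd4) (egirth_induce G S hg)
    refine ⟨Subtype.val '' I, by simp, ?_, by omega, by omega, ?_⟩
    · rintro _ ⟨v, hv, rfl⟩ _ ⟨w, hw, rfl⟩ hvw
      exact hI1 v hv w hw hvw
    · intro a b p hp
      by_contra hcon
      push Not at hcon
      let φ : G.induce (S \ Subtype.val '' I) →g G.induce S :=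
        ⟨fun v => ⟨v.1, v.2.1⟩, fun h => h⟩
      have hφ : Function.Injective φ := by
        intro v w hvw
        exact Subtype.ext (congrArg (fun z : S => z.1) hvw)
      obtain ⟨x, hx, hxI⟩ := hI2 _ _ ((p.take L).map φ) ((hp.take L).map hφ)
        (by rw [SimpleGraph.Walk.length_map, SimpleGraph.Walk.take_length]; omega)
      rw [SimpleGraph.Walk.support_map, List.mem_map] at hx
      obtain ⟨v, hv, rfl⟩ := hx
      exact v.2.2 ⟨_, hxI, rfl⟩

end Parts

/-! ### The partition -/

/-- The number of independent classes: `⌊(k + 1) / 5⌋`, plus one if `(k + 1) mod 5` is `1`, `3` or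
`4`. -/
def independentClasses (k : ℕ) : ℕ := (k + 1) / 5 + if (k + 1) % 5 = 0 ∨ (k + 1) % 5 = 2 then 0 else 1

/-- The number of classes which induce a forest: `⌊(k + 1) / 5⌋`, plus one if `(k + 1) mod 5` is
`2`, `3` or `4`. -/
def forestClasses (k : ℕ) : ℕ := (k + 1) / 5 + if 2 ≤ (k + 1) % 5 then 1 else 0

theorem exists_d (k : ℕ) : ∃ (p : ℕ) (d : Fin p → ℕ), k + 1 ≤ ∑ i, (d i + 1) ∧ (∀ i, d i ≤ 4) ∧
    (∀ i, d i ≠ 1 → i.val < independentClasses k) ∧ (∀ i, d i ≠ 0 → i.val < forestClasses k) := by
  unfold independentClasses forestClasses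
  by_cases h : (k + 1) % 5 = 0
  · refine ⟨(k + 1) / 5, fun _ => 4, ?_, fun _ => le_rfl, fun i _ => ?_, fun i _ => ?_⟩
    · simp
      omega
    · have := i.2
      omega
    · have := i.2
      omega
  · refine ⟨(k + 1) / 5 + 1, fun i => if i.val < (k + 1) / 5 then 4 else (k + 1) % 5 - 1,
      ?_, fun i => ?_, fun i hi => ?_, fun i hi => ?_⟩
    · rw [Fin.sum_univ_castSucc]
      simp
      omega
    · dsimp only
      split_ifs <;> omega
    · have := i.2
      dsimp only at hi
      split_ifs at hi ⊢ <;> omega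
    · have := i.2
      dsimp only at hi
      split_ifs at hi ⊢ <;> omega

theorem partition (k : ℕ) : ∃ g K : ℕ, 1 ≤ K ∧ ∀ (V : Type) [Fintype V] (G : SimpleGraph V),
    (∀ v, (G.neighborSet v).ncard ≤ k) → (g : ℕ∞) ≤ G.egirth →
    ∃ c : V → Fin (independentClasses k) ⊕ Fin (forestClasses k),
      (∀ i v w, c v = Sum.inl i → c w = Sum.inl i → ¬ G.Adj v w) ∧
      ∀ j, (G.induce {v | c v = Sum.inr j}).IsAcyclic ∧
        ∀ C : (G.induce {v | c v = Sum.inr j}).ConnectedComponent, C.supp.ncard ≤ K := by
  classical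
  obtain ⟨g0, L0, -, hcore0⟩ := Pool.Agent.H958R2.GK.core4
  obtain ⟨L, hL⟩ : ∃ L, L = max L0 2 := ⟨_, rfl⟩
  obtain ⟨g, hg⟩ : ∃ g, g = max g0 (L + 2) := ⟨_, rfl⟩
  have hcore : ∀ (W : Type) [Fintype W] (H : SimpleGraph W),
      (∀ v, (H.neighborSet v).ncard ≤ 4) → (g : ℕ∞) ≤ H.egirth →
      ∃ I : Set W, (∀ v ∈ I, ∀ w ∈ I, ¬ H.Adj v w) ∧
        ∀ (a b : W) (p : H.Walk a b), p.IsPath → p.length = L → ∃ v ∈ p.support, v ∈ I := by
    intro W _ H h1 h2
    have hg0 : (g0 : ℕ∞) ≤ H.egirth := by
      refine le_trans ?_ h2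
      have : g0 ≤ g := by omega
      exact_mod_cast this
    obtain ⟨I, hI1, hI2⟩ := hcore0 W H h1 hg0
    refine ⟨I, hI1, ?_⟩
    intro a b p hp hlen
    obtain ⟨v, hv, hvI⟩ := hI2 _ _ (p.take L0) (hp.take L0)
      (by rw [SimpleGraph.Walk.take_length]; omega)
    exact ⟨v, (SimpleGraph.Walk.isSubwalk_take p L0).support_subset hv, hvI⟩
  obtain ⟨p, d, hd1, hd2, hd3, hd4⟩ := exists_d k
  refine ⟨g, 5 ^ L, Nat.one_le_pow _ _ (by norm_num), ?_⟩
  intro V _ G hG hgirth
  obtain ⟨f, hf⟩ := lovasz G d k hG hd1
  have hpart : ∀ i : Fin p, ∃ I ⊆ {v | f v = i}, (∀ v ∈ I, ∀ w ∈ I, ¬ G.Adj v w) ∧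
      (d i = 1 → I = ∅) ∧ (d i = 0 → I = {v | f v = i}) ∧
      ∀ (a b : ({v | f v = i} \ I : Set V)) (q : (G.induce ({v | f v = i} \ I)).Walk a b),
        q.IsPath → q.length < L := by
    intro i
    refine one_part G (by omega) hcore hgirth {v | f v = i} (d i) (hd2 i) ?_
    intro v hv
    have h1 := hf v
    have h2 : f v = i := hv
    rw [h2] at h1
    exact h1
  choose I hIS hI1 hI2 hI3 hI4 using hpart
  have hA : ∀ v, v ∈ I (f v) → (f v).val < independentClasses k := by
    intro v hv
    apply hd3
    intro h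
    rw [hI2 _ h] at hv
    exact hv
  have hB : ∀ v, v ∉ I (f v) → (f v).val < forestClasses k := by
    intro v hv
    apply hd4
    intro h
    apply hv
    rw [hI3 _ h]
    rfl
  let c : V → Fin (independentClasses k) ⊕ Fin (forestClasses k) := fun v =>
    if h : v ∈ I (f v) then Sum.inl ⟨(f v).val, hA v h⟩ else Sum.inr ⟨(f v).val, hB v h⟩
  have hc1 : ∀ v i, c v = Sum.inl i → v ∈ I (f v) ∧ (f v).val = i.val := by
    intro v i h
    by_cases hv : v ∈ I (f v)
    · simp only [c, dif_pos hv, Sum.inl.injEq] at h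
      exact ⟨hv, congrArg Fin.val h⟩
    · simp only [c, dif_neg hv] at h
      exact absurd h (by simp)
  have hc2 : ∀ v j, c v = Sum.inr j → v ∉ I (f v) ∧ (f v).val = j.val := by
    intro v i h
    by_cases hv : v ∈ I (f v)
    · simp only [c, dif_pos hv] at h
      exact absurd h (by simp)
    · simp only [c, dif_neg hv, Sum.inr.injEq] at h
      exact ⟨hv, congrArg Fin.val h⟩
  refine ⟨c, ?_, ?_⟩
  · intro i v w hv hw
    obtain ⟨h1, h2⟩ := hc1 v i hv
    obtain ⟨h3, h4⟩ := hc1 w i hw
    have h5 : f w = f v := Fin.ext (h4.trans h2.symm)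
    rw [h5] at h3
    exact hI1 _ v h1 w h3
  · intro j
    apply bounded_forest (g := g) _ L (by omega)
    · intro v
      refine (neigh_induce G _ v).trans ?_
      obtain ⟨h1, h2⟩ := hc2 v j v.2
      refine le_trans (Set.ncard_le_ncard ?_ (Set.toFinite _)) ((hf v).trans (hd2 _))
      rintro w ⟨hw1, hw2⟩
      obtain ⟨h3, h4⟩ := hc2 w j hw2
      exact ⟨hw1, Fin.ext (h4.trans h2.symm)⟩
    · exact egirth_induce G _ hgirth
    · intro a b q hq
      have hfa : ∀ v : ({v | c v = Sum.inr j} : Set V), f v = f a := by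
        intro v
        exact Fin.ext ((hc2 v j v.2).2.trans (hc2 a j a.2).2.symm)
      let φ : G.induce {v | c v = Sum.inr j} →g G.induce ({v | f v = f a} \ I (f a)) :=
        ⟨fun v => ⟨v.1, hfa v, by
          have h := (hc2 v j v.2).1
          rwa [hfa v] at h⟩, fun h => h⟩
      have hφ : Function.Injective φ := by
        intro v w hvw
        exact Subtype.ext (congrArg (fun z : ({v | f v = f a} \ I (f a) : Set V) => z.1) hvw)
      have h := hI4 (f a) _ _ (q.map φ) (hq.map hφ)
      rwa [SimpleGraph.Walk.length_map] at h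


/-! ### Colourings -/

section Colour

variable {V : Type} (G : SimpleGraph V) {a b : ℕ} (c : V → Fin a ⊕ Fin b)

/-- the colour of a vertex: its class, and in a forest class one of two colours -/
def colr (f : V → Bool) (v : V) : Fin a ⊕ (Fin b × Bool) :=
  match c v with
  | Sum.inl i => Sum.inl i
  | Sum.inr j => Sum.inr (j, f v)

theorem colr_inl {c : V → Fin a ⊕ Fin b} {f : V → Bool} {v : V} {i : Fin a}
    (h : c v = Sum.inl i) : colr c f v = Sum.inl i := by
  unfold colr
  rw [h]

theorem colr_inr {c : V → Fin a ⊕ Fin b} {f : V → Bool} {v : V} {j : Fin b}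
    (h : c v = Sum.inr j) : colr c f v = Sum.inr (j, f v) := by
  unfold colr
  rw [h]

/-- `f` is a proper colouring of every forest class -/
def Good (f : V → Bool) : Prop :=
  ∀ v w j, G.Adj v w → c v = Sum.inr j → c w = Sum.inr j → f v ≠ f w

theorem colr_proper (h1 : ∀ i v w, c v = Sum.inl i → c w = Sum.inl i → ¬ G.Adj v w)
    (f : V → Bool) (hf : Good G c f) {v w : V} (hvw : G.Adj v w) : colr c f v ≠ colr c f w := by
  intro h
  rcases hv : c v with i | j
  · rcases hw : c w with i' | j'
    · rw [colr_inl hv, colr_inl hw] at h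
      have := Sum.inl_injective h
      subst this
      exact h1 _ v w hv hw hvw
    · rw [colr_inl hv, colr_inr hw] at h
      exact absurd h (by simp)
  · rcases hw : c w with i' | j'
    · rw [colr_inr hv, colr_inl hw] at h
      exact absurd h (by simp)
    · rw [colr_inr hv, colr_inr hw] at h
      have h2 := Sum.inr_injective h
      have h3 : j = j' := congrArg Prod.fst h2
      subst h3
      exact hf v w j hvw hv hw (congrArg Prod.snd h2)

theorem exists_good (h2 : ∀ j, (G.induce {v | c v = Sum.inr j}).IsAcyclic) :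
    ∃ f : V → Bool, Good G c f := by
  classical
  have h3 : ∀ j, Nonempty ((G.induce {v | c v = Sum.inr j}).Coloring Bool) := by
    intro j
    exact ⟨((h2 j).isBipartite : (G.induce {v | c v = Sum.inr j}).Colorable 2).toColoring
      (by simp)⟩
  let C : ∀ j, (G.induce {v | c v = Sum.inr j}).Coloring Bool := fun j => (h3 j).some
  refine ⟨fun v => match h : c v with
    | Sum.inl _ => false
    | Sum.inr j => C j ⟨v, h⟩, ?_⟩
  intro v w j hvw hv hw
  have e : ∀ u (hu : c u = Sum.inr j), (match h : c u with
    | Sum.inl _ => false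
    | Sum.inr j => C j ⟨u, h⟩) = C j ⟨u, hu⟩ := by
    intro u hu
    split
    · rename_i i h
      rw [hu] at h
      exact absurd h (by simp)
    · rename_i j' h
      have : j' = j := Sum.inr_injective (h.symm.trans hu)
      subst this
      rfl
  dsimp only
  rw [e v hv, e w hw]
  exact (C j).valid (show (G.induce {v | c v = Sum.inr j}).Adj ⟨v, hv⟩ ⟨w, hw⟩ from hvw)

instance finCol [Finite V] {X : Type} [Finite X] : Finite (G.Coloring X) :=
  Finite.of_injective (fun C : G.Coloring X => (C : V → X)) DFunLike.coe_injective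

theorem count1 [Finite V] (h1 : ∀ i v w, c v = Sum.inl i → c w = Sum.inl i → ¬ G.Adj v w)
    (f : V → Bool) (hf : Good G c f) (j0 : Fin b) :
    2 ^ (Nat.card (G.induce {v | c v = Sum.inr j0}).ConnectedComponent) ≤
      Nat.card (G.Coloring (Fin a ⊕ (Fin b × Bool))) := by
  classical
  let H := G.induce {v | c v = Sum.inr j0}
  let F : (H.ConnectedComponent → Bool) → V → Bool := fun s v =>
    if h : c v = Sum.inr j0 then xor (f v) (s (H.connectedComponentMk ⟨v, h⟩)) else f v
  have hF : ∀ s, Good G c (F s) := by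
    intro s v w j hvw hv hw
    have h3 := hf v w j hvw hv hw
    by_cases hj : j = j0
    · subst hj
      have h4 : H.connectedComponentMk ⟨v, hv⟩ = H.connectedComponentMk ⟨w, hw⟩ := by
        rw [SimpleGraph.ConnectedComponent.eq]
        exact (show H.Adj ⟨v, hv⟩ ⟨w, hw⟩ from hvw).reachable
      simp only [F, dif_pos hv, dif_pos hw, h4]
      intro h5
      apply h3
      have h6 := congrArg (fun z => xor z (s (H.connectedComponentMk ⟨w, hw⟩))) h5
      simpa using h6
    · have h4 : ¬ c v = Sum.inr j0 := fun h => hj (Sum.inr_injective (hv.symm.trans h))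
      have h5 : ¬ c w = Sum.inr j0 := fun h => hj (Sum.inr_injective (hw.symm.trans h))
      simp only [F, dif_neg h4, dif_neg h5]
      exact h3
  let Φ : (H.ConnectedComponent → Bool) → G.Coloring (Fin a ⊕ (Fin b × Bool)) := fun s =>
    SimpleGraph.Coloring.mk (colr c (F s)) (fun {v w} hvw => colr_proper G c h1 (F s) (hF s) hvw)
  have hΦ : Function.Injective Φ := by
    intro s t hst
    funext κ
    induction κ using SimpleGraph.ConnectedComponent.ind with
    | h v =>
      have h3 : colr c (F s) v.1 = colr c (F t) v.1 :=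
        congrFun (congrArg (fun C : G.Coloring (Fin a ⊕ (Fin b × Bool)) => (C : V → _)) hst) v.1
      have hv : c v.1 = Sum.inr j0 := v.2
      rw [colr_inr hv, colr_inr hv] at h3
      have h4 : F s v.1 = F t v.1 := congrArg Prod.snd (Sum.inr_injective h3)
      simp only [F, dif_pos hv] at h4
      have h6 := congrArg (fun z => xor (f v.1) z) h4
      simpa using h6
  have : Finite H.ConnectedComponent := inferInstance
  have h3 := Nat.card_le_card_of_injective Φ hΦ
  rwa [Nat.card_fun, Nat.card_eq_fintype_card, Fintype.card_bool] at h3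

theorem count2 [Finite V] (h1 : ∀ i v w, c v = Sum.inl i → c w = Sum.inl i → ¬ G.Adj v w)
    (f : V → Bool) (hf : Good G c f) (j0 : Fin b) (S : Set V)
    (hS1 : ∀ v ∈ S, c v ≠ Sum.inr j0) (hS2 : ∀ v ∈ S, ∀ w, G.Adj v w → c w ≠ Sum.inr j0)
    (hS3 : ∀ v ∈ S, ∀ w ∈ S, ¬ G.Adj v w) :
    2 ^ S.ncard ≤ Nat.card (G.Coloring (Fin a ⊕ (Fin b × Bool))) := by
  classical
  let F : (S → Bool) → V → Fin a ⊕ (Fin b × Bool) := fun U v =>
    if h : v ∈ S then (if U ⟨v, h⟩ then Sum.inr (j0, false) else colr c f v) else colr c f v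
  have hne : ∀ v, c v ≠ Sum.inr j0 → colr c f v ≠ Sum.inr (j0, false) := by
    intro v hv h
    rcases hc : c v with i | j
    · rw [colr_inl hc] at h
      exact absurd h (by simp)
    · rw [colr_inr hc] at h
      have h' : j = j0 := congrArg Prod.fst (Sum.inr_injective h)
      apply hv
      rw [hc, h']
  have hFv : ∀ U v, F U v = Sum.inr (j0, false) ∧ v ∈ S ∨ F U v = colr c f v := by
    intro U v
    simp only [F]
    split_ifs with h3 h4
    · exact Or.inl ⟨rfl, h3⟩
    · exact Or.inr rfl
    · exact Or.inr rfl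
  have hF : ∀ U v w, G.Adj v w → F U v ≠ F U w := by
    intro U v w hvw
    rcases hFv U v with ⟨h3, h4⟩ | h3 <;> rcases hFv U w with ⟨h5, h6⟩ | h5
    · exact absurd hvw (hS3 v h4 w h6)
    · rw [h3, h5]
      exact (hne w (hS2 v h4 w hvw)).symm
    · rw [h3, h5]
      exact hne v (hS2 w h6 v hvw.symm)
    · rw [h3, h5]
      exact colr_proper G c h1 f hf hvw
  let Φ : (S → Bool) → G.Coloring (Fin a ⊕ (Fin b × Bool)) := fun U =>
    SimpleGraph.Coloring.mk (F U) (fun {v w} hvw => hF U v w hvw)
  have hΦ : Function.Injective Φ := by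
    intro U U' hU
    funext v
    have h3 : F U v.1 = F U' v.1 :=
      congrFun (congrArg (fun C : G.Coloring (Fin a ⊕ (Fin b × Bool)) => (C : V → _)) hU) v.1
    have h4 := hne v.1 (hS1 v.1 v.2)
    have h5 : v.1 ∈ S := v.2
    simp only [F, dif_pos h5] at h3
    by_cases h6 : U v = true <;> by_cases h7 : U' v = true
    · rw [h6, h7]
    · rw [if_pos h6, if_neg h7] at h3
      exact absurd h3.symm h4
    · rw [if_neg h6, if_pos h7] at h3
      exact absurd h3 h4
    · rw [Bool.not_eq_true] at h6 h7
      rw [h6, h7]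
  have h3 := Nat.card_le_card_of_injective Φ hΦ
  rwa [Nat.card_fun, Nat.card_eq_fintype_card, Fintype.card_bool, Nat.card_coe_set_eq] at h3

theorem count [Fintype V] (k K : ℕ) (hG : ∀ v, (G.neighborSet v).ncard ≤ k)
    (h1 : ∀ i v w, c v = Sum.inl i → c w = Sum.inl i → ¬ G.Adj v w)
    (f : V → Bool) (hf : Good G c f) (j0 : Fin b)
    (hK : ∀ C : (G.induce {v | c v = Sum.inr j0}).ConnectedComponent, C.supp.ncard ≤ K) :
    2 ^ Fintype.card V ≤ Nat.card (G.Coloring (Fin a ⊕ (Fin b × Bool))) ^
      ((k + 1) * K + (a + 2 * b)) := by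
  classical
  obtain ⟨F, hF⟩ : ∃ F : Finset V, F = univ.filter (fun v => c v = Sum.inr j0) := ⟨_, rfl⟩
  obtain ⟨T, hT⟩ : ∃ T : Finset V, T = univ.filter (fun v => c v ≠ Sum.inr j0 ∧
    ∀ w, G.Adj v w → c w ≠ Sum.inr j0) := ⟨_, rfl⟩
  -- the vertices outside `T`
  have e1 : Fintype.card V ≤ T.card + F.card * (k + 1) := by
    have h2 : (univ : Finset V) ⊆ T ∪ F.biUnion (fun u => insert u (G.neighborSet u).toFinset) := by
      intro v _
      rw [Finset.mem_union]
      by_cases hv : c v = Sum.inr j0
      · right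
        rw [Finset.mem_biUnion]
        exact ⟨v, by rw [hF]; simp [hv], by simp⟩
      · by_cases hw : ∃ w, G.Adj v w ∧ c w = Sum.inr j0
        · obtain ⟨w, hw1, hw2⟩ := hw
          right
          rw [Finset.mem_biUnion]
          exact ⟨w, by rw [hF]; simp [hw2], by simp [hw1.symm]⟩
        · left
          rw [hT]
          simp only [Finset.mem_filter, Finset.mem_univ, true_and]
          push Not at hw
          exact ⟨hv, hw⟩
    refine (Finset.card_le_card h2).trans ((Finset.card_union_le _ _).trans ?_)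
    refine Nat.add_le_add_left (Finset.card_biUnion_le_card_mul _ _ _ ?_) _
    intro u _
    have h3 := Finset.card_insert_le u (G.neighborSet u).toFinset
    have h4 := hG u
    rw [Set.ncard_eq_toFinset_card'] at h4
    omega
  -- the forest class
  have e2 : F.card ≤ K * Nat.card (G.induce {v | c v = Sum.inr j0}).ConnectedComponent := by
    let H := G.induce {v | c v = Sum.inr j0}
    have h3 : F.card = Fintype.card ({v | c v = Sum.inr j0} : Set V) := by
      rw [hF, Fintype.card_subtype]
      rfl
    have h4 : (univ : Finset ({v | c v = Sum.inr j0} : Set V)).card ≤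
        K * ((univ : Finset ({v | c v = Sum.inr j0} : Set V)).image
          H.connectedComponentMk).card := by
      apply Finset.card_le_mul_card_image
      intro κ _
      have h5 := hK κ
      rw [Set.ncard_eq_toFinset_card'] at h5
      refine le_trans (Finset.card_le_card ?_) h5
      intro v hv
      rw [Finset.mem_filter] at hv
      rw [Set.mem_toFinset]
      exact hv.2
    have : Fintype H.ConnectedComponent := Fintype.ofFinite _
    have h5 : ((univ : Finset ({v | c v = Sum.inr j0} : Set V)).image
        H.connectedComponentMk).card ≤ Nat.card H.ConnectedComponent := by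
      rw [Nat.card_eq_fintype_card]
      exact Finset.card_le_univ _
    rw [h3]
    exact h4.trans (Nat.mul_le_mul_left _ h5)
  -- a large independent set in `T`
  obtain ⟨S, hST, hS1, hS2⟩ : ∃ S ⊆ T, T.card ≤ S.card * (a + 2 * b) ∧
      ∀ v ∈ S, ∀ w ∈ S, colr c f v = colr c f w := by
    obtain ⟨x, -, hx⟩ := Finset.exists_max_image (univ : Finset (Fin a ⊕ (Fin b × Bool)))
      (fun x => (T.filter (fun v => colr c f v = x)).card) ⟨Sum.inr (j0, false), Finset.mem_univ _⟩
    refine ⟨T.filter (fun v => colr c f v = x), Finset.filter_subset _ _, ?_, ?_⟩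
    · rw [Finset.card_eq_sum_card_fiberwise (f := colr c f) (t := univ) (fun v _ => by simp)]
      refine (Finset.sum_le_card_nsmul univ _ _ hx).trans ?_
      rw [Finset.card_univ, smul_eq_mul]
      simp only [Fintype.card_sum, Fintype.card_prod, Fintype.card_fin, Fintype.card_bool]
      exact le_of_eq (by ring)
    · intro v hv w hw
      rw [Finset.mem_filter] at hv hw
      rw [hv.2, hw.2]
  have e3 := count2 G c h1 f hf j0 (S : Set V)
    (fun v hv => by
      have := hST (Finset.mem_coe.1 hv)
      rw [hT, Finset.mem_filter] at this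
      exact this.2.1)
    (fun v hv w hvw => by
      have := hST (Finset.mem_coe.1 hv)
      rw [hT, Finset.mem_filter] at this
      exact this.2.2 w hvw)
    (fun v hv w hw hvw => colr_proper G c h1 f hf hvw
      (hS2 v (Finset.mem_coe.1 hv) w (Finset.mem_coe.1 hw)))
  rw [Set.ncard_coe_finset] at e3
  have e4 := count1 G c h1 f hf j0
  obtain ⟨N, hN⟩ : ∃ N, N = Nat.card (G.Coloring (Fin a ⊕ (Fin b × Bool))) := ⟨_, rfl⟩
  obtain ⟨M, hM⟩ : ∃ M, M = Nat.card (G.induce {v | c v = Sum.inr j0}).ConnectedComponent :=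
    ⟨_, rfl⟩
  rw [← hN] at e3 e4 ⊢
  rw [← hM] at e2 e4
  calc 2 ^ Fintype.card V ≤ 2 ^ (M * ((k + 1) * K) + S.card * (a + 2 * b)) := by
        apply Nat.pow_le_pow_right (by norm_num)
        have h6 : F.card * (k + 1) ≤ (K * M) * (k + 1) := Nat.mul_le_mul_right _ e2
        have h7 : M * ((k + 1) * K) = (K * M) * (k + 1) := by ring
        omega
    _ = (2 ^ M) ^ ((k + 1) * K) * (2 ^ S.card) ^ (a + 2 * b) := by
        rw [pow_add, ← pow_mul 2 M, ← pow_mul 2 S.card]
    _ ≤ N ^ ((k + 1) * K) * N ^ (a + 2 * b) :=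
        Nat.mul_le_mul (Nat.pow_le_pow_left e4 _) (Nat.pow_le_pow_left e3 _)
    _ = N ^ ((k + 1) * K + (a + 2 * b)) := (pow_add N _ _).symm

end Colour

/-- Colourings with more colours. -/
theorem col_mono {V : Type} [Finite V] (G : SimpleGraph V) {X Y : Type} [Finite Y]
    (e : X → Y) (he : Function.Injective e) :
    Nat.card (G.Coloring X) ≤ Nat.card (G.Coloring Y) := by
  let Φ : G.Coloring X → G.Coloring Y := fun C =>
    SimpleGraph.Coloring.mk (fun v => e (C v)) (fun {v w} hvw h => C.valid hvw (he h))
  apply Nat.card_le_card_of_injective Φ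
  intro C D h
  apply DFunLike.ext
  intro v
  exact he (congrFun (congrArg (fun C : G.Coloring Y => (C : V → Y)) h) v)

/-- **Graphs of maximum degree `k ≥ 4` and large girth.**  There are `g`, `K`, `C` such that for every
finite graph of maximum degree at most `k` and girth at least `g`:
* the vertices can be divided into `independentClasses k` independent sets and `forestClasses k`
  sets which induce forests all of whose components have at most `K` vertices;
* the chromatic number is at most `m = 3 ⌊(k + 1) / 5⌋ + min 3 ((k + 1) mod 5)`, and there are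
  exponentially many proper colourings with `m` colours: their number to the power `C` is at least
  `2 ^ |V|`;
* in particular there are exponentially many proper colourings with `k - 1` colours, and no
  `k`-regular graph of girth at least `g` has chromatic number `k`. -/
theorem result (k : ℕ) (hk : 4 ≤ k) : ∃ g K C : ℕ, ∀ (V : Type) [Fintype V] (G : SimpleGraph V),
    (∀ v, (G.neighborSet v).ncard ≤ k) → (g : ℕ∞) ≤ G.egirth →
    (∃ c : V → Fin (independentClasses k) ⊕ Fin (forestClasses k),
      (∀ i v w, c v = Sum.inl i → c w = Sum.inl i → ¬ G.Adj v w) ∧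
      ∀ j, (G.induce {v | c v = Sum.inr j}).IsAcyclic ∧
        ∀ D : (G.induce {v | c v = Sum.inr j}).ConnectedComponent, D.supp.ncard ≤ K) ∧
    G.Colorable (3 * ((k + 1) / 5) + min 3 ((k + 1) % 5)) ∧
    2 ^ Fintype.card V ≤
      Nat.card (G.Coloring (Fin (3 * ((k + 1) / 5) + min 3 ((k + 1) % 5)))) ^ C ∧
    G.Colorable (k - 1) ∧ 2 ^ Fintype.card V ≤ Nat.card (G.Coloring (Fin (k - 1))) ^ C ∧
    G.chromaticNumber ≠ k := by
  classical
  obtain ⟨g, K, -, h⟩ := partition k
  refine ⟨g, K, (k + 1) * K + (independentClasses k + 2 * forestClasses k), ?_⟩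
  intro V _ G hG hg
  obtain ⟨c, hc1, hc2⟩ := h V G hG hg
  obtain ⟨f, hf⟩ := exists_good G c (fun j => (hc2 j).1)
  have hb : 0 < forestClasses k := by
    unfold forestClasses
    omega
  have hm : independentClasses k + forestClasses k * 2 =
      3 * ((k + 1) / 5) + min 3 ((k + 1) % 5) := by
    unfold independentClasses forestClasses
    split_ifs <;> omega
  have hm2 : 3 * ((k + 1) / 5) + min 3 ((k + 1) % 5) ≤ k - 1 := by omega
  obtain ⟨m, hm'⟩ : ∃ m, m = 3 * ((k + 1) / 5) + min 3 ((k + 1) % 5) := ⟨_, rfl⟩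
  rw [← hm'] at hm hm2 ⊢
  have hcard : Fintype.card (Fin (independentClasses k) ⊕ (Fin (forestClasses k) × Bool)) = m := by
    simp only [Fintype.card_sum, Fintype.card_prod, Fintype.card_fin, Fintype.card_bool]
    exact hm
  have e := Fintype.equivFinOfCardEq hcard
  have h1 : G.Colorable m := by
    refine ⟨SimpleGraph.Coloring.mk (fun v => e (colr c f v)) ?_⟩
    intro v w hvw h'
    exact colr_proper G c hc1 f hf hvw (e.injective h')
  have h2 : 2 ^ Fintype.card V ≤ Nat.card (G.Coloring (Fin m)) ^
      ((k + 1) * K + (independentClasses k + 2 * forestClasses k)) :=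
    (count G c k K hG hc1 f hf ⟨0, hb⟩ (hc2 _).2).trans
      (Nat.pow_le_pow_left (col_mono G e e.injective) _)
  have h3 : G.Colorable (k - 1) := h1.mono hm2
  refine ⟨⟨c, hc1, hc2⟩, h1, h2, h3, h2.trans (Nat.pow_le_pow_left
    (col_mono G (Fin.castLE hm2) (Fin.castLE_injective hm2)) _), ?_⟩
  intro h4
  have h5 := h3.chromaticNumber_le
  rw [h4] at h5
  have h6 : k ≤ k - 1 := by exact_mod_cast h5
  omega

end Pool.Agent.Results.MP_246f82_co.StrongPartition
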